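import Pool.Agent.helper88.RQ2.Spec

/-!
Row MSU of project RQ: one induction step for the strict form of the second family of bounds.
-/

set_option autoImplicit false

open Set Matroid RadonMin

namespace RadonQ2

/-- the correction term grows at `q ≥ 4`, `q ≠ 5` -/
theorem MSU_corr (q : ℕ) (hq : 4 ≤ q) (h5 : q ≠ 5) : corr q + 1 ≤ corr (q + 1) := by
  rcases Nat.lt_or_ge q 6 with h | h
  · have h4 : q = 4 := by omega
    subst h4
    decide
  · unfold corr
    rw [if_neg (by omega), if_neg (by omega)]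
    omega

theorem MSU_proof (hAUD : AUD_stmt) (hASU : ASU_stmt) : MSU_stmt := by
  intro α M _ hs hg hc k hk hr q hq hprev hex
  have hEfin : M.E.Finite := M.ground_finite
  obtain ⟨p, rfl⟩ : ∃ p, q = p + 1 := ⟨q - 1, by omega⟩
  have hp3 : 3 ≤ p := by omega
  have e0 : p + 1 - 1 = p := by omega
  rw [e0] at hprev
  have hcor : (corr (p + 1) : ℤ) ≤ corr (p + 2) := by exact_mod_cast corr_mono (p + 1)
  have hA := hAUD p (M.E.ncard : ℤ) (k : ℤ) (by omega)
  by_cases hsmall : M.E.ncard ≤ (p + 1) * k + 1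
  · have h1 : (M.E.ncard : ℤ) ≤ (p + 1) * k + 1 := by exact_mod_cast hsmall
    have h2 : (p : ℤ) * ((M.E.ncard : ℤ) - 1 - (p + 1) * k) ≤ 0 :=
      mul_nonpos_of_nonneg_of_nonpos (by positivity) (by linarith)
    linarith
  · push Not at hsmall
    have hk1 : p + 1 ≤ (p + 1) * k := Nat.le_mul_of_pos_right _ (by omega)
    obtain ⟨X, hX, hX2⟩ := exists_subset_card_eq (s := M.E) (n := 2) (by omega)
    obtain ⟨e, g, heg, hXeg⟩ := ncard_eq_two.mp hX2
    have heE : e ∈ M.E := hX (by rw [hXeg]; simp)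
    have hgE : g ∈ M.E := hX (by rw [hXeg]; simp)
    obtain ⟨C0, hC0, he0, -⟩ := hc.exists_common_circuit heE hgE heg
    have hrk := rk_sdiff_singleton_of_circuit hC0 he0
    have hcard : (M ＼ {e}).E.ncard = M.E.ncard - 1 := by
      rw [delete_ground, ncard_sdiff_singleton_of_mem heE]
    have hcardZ : ((M ＼ {e}).E.ncard : ℤ) = (M.E.ncard : ℤ) - 1 := by
      rw [hcard]
      push_cast [Nat.cast_sub (show 1 ≤ M.E.ncard by omega)]
      ring
    have hrk' : rk (M ＼ {e}) (M ＼ {e}).E = 2 * k + 1 := by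
      rw [delete_ground, rk_delete M le_rfl, hrk, hr]
    have h1 : UU (p + 1) ((M.E.ncard : ℤ) - 1) (k : ℤ) ≤ cc (M ＼ {e}) := by
      have := U_bound (hs.delete {e}) (hg.delete {e}) k (by omega) hrk' (p + 1) (by omega)
      rw [hcardZ] at this
      unfold UU
      exact this
    have h2 := cc_eq_delete_add_ce M e
    have h2' : (cc M : ℤ) = cc (M ＼ {e}) + ce M e := by exact_mod_cast h2
    have h3 := ce_lower hs hc heE ((p + 1) / 2)
    have hR : ((rk M M.E : ℤ) - 1) = 2 * (k : ℤ) := by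
      rw [hr]; push_cast; ring
    rw [hR] at h3
    have hstep : UU (p + 1) (M.E.ncard : ℤ) (k : ℤ) =
        UU (p + 1) ((M.E.ncard : ℤ) - 1) (k : ℤ) + ((p + 1).choose 2 : ℤ) := by
      unfold UU
      ring
    have hparity : (((p + 1 : ℕ) : ℤ) = 2 * (((p + 1) / 2 : ℕ) : ℤ) ∨
        ((p + 1 : ℕ) : ℤ) = 2 * (((p + 1) / 2 : ℕ) : ℤ) + 1) := by
      have h4 := Nat.div_add_mod (p + 1) 2
      have h5 := Nat.mod_lt (p + 1) (show 2 > 0 by norm_num)
      omega
    have hj2 : (2 : ℤ) ≤ (((p + 1) / 2 : ℕ) : ℤ) := by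
      have : 2 ≤ (p + 1) / 2 := by omega
      exact_mod_cast this
    have hk2 : (2 : ℤ) ≤ (k : ℤ) := by exact_mod_cast hk
    have hN : ((p + 1 : ℕ) : ℤ) * (k : ℤ) + 1 ≤ (M.E.ncard : ℤ) - 1 := by
      have : (((p + 1) * k + 1 : ℕ) : ℤ) < (M.E.ncard : ℤ) := by exact_mod_cast hsmall
      push_cast at this ⊢
      linarith
    by_cases hA1 : 3 ≤ k ∨ (p + 1) * k + 3 ≤ M.E.ncard
    · have hor : (3 : ℤ) ≤ (k : ℤ) ∨ ((p + 1 : ℕ) : ℤ) * (k : ℤ) + 2 ≤ (M.E.ncard : ℤ) - 1 := by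
        rcases hA1 with h | h
        · exact Or.inl (by exact_mod_cast h)
        · right
          have : (((p + 1) * k + 3 : ℕ) : ℤ) ≤ (M.E.ncard : ℤ) := by exact_mod_cast h
          push_cast at this ⊢
          linarith
      have h4 := hASU ((p + 1 : ℕ) : ℤ) ((M.E.ncard : ℤ) - 1) (k : ℤ) (((p + 1) / 2 : ℕ) : ℤ)
        (((p + 1) / 2 + 1).choose 2 : ℤ) ((p + 1).choose 2 : ℤ) hj2 hk2 hparity (two_choose _)
        (two_mul_choose_two (p + 1)) hN hor
      rw [h2', hstep]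
      linarith
    · push Not at hA1
      obtain ⟨hk3, hn3⟩ := hA1
      have hk' : k = 2 := by omega
      subst hk'
      have hn : M.E.ncard = 2 * p + 4 := by omega
      have hq5 : p + 1 ≠ 5 := by
        intro h5
        exact hex ⟨h5, rfl, by omega⟩
      have h4 := deletion_U ((p + 1 : ℕ) : ℤ) ((M.E.ncard : ℤ) - 1) ((2 : ℕ) : ℤ)
        (((p + 1) / 2 : ℕ) : ℤ)
        (((p + 1) / 2 + 1).choose 2 : ℤ) ((p + 1).choose 2 : ℤ) (by linarith) hk2 hparity
        (two_choose _) (two_mul_choose_two (p + 1)) hN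
      have h5 : UU p ((M.E.ncard : ℤ) - 1) ((2 : ℕ) : ℤ) ≤ cc (M ＼ {e}) := by
        have := U_bound (hs.delete {e}) (hg.delete {e}) 2 (by omega) hrk' p (by omega)
        rw [hcardZ] at this
        unfold UU
        exact this
      have h6 := hAUD p ((M.E.ncard : ℤ) - 1) ((2 : ℕ) : ℤ) (by omega)
      have h7 : (corr (p + 1) : ℤ) + 1 ≤ corr (p + 2) := by
        exact_mod_cast MSU_corr (p + 1) (by omega) hq5
      have h8 : (M.E.ncard : ℤ) = 2 * p + 4 := by exact_mod_cast hn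
      have h9 : (p : ℤ) * ((M.E.ncard : ℤ) - 1 - 1 - (p + 1) * ((2 : ℕ) : ℤ)) = 0 := by
        rw [h8]
        push_cast
        ring
      rw [h9] at h6
      rw [h2', hstep]
      linarith

end RadonQ2
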